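import Pool.Agent.Q82.CP12

/-!
MP_fa8dfe_an: for countable compact Hausdorff spaces `K`, `L` there is a positive linear
homeomorphism of `C_p(K)` onto `C_p(L)` if and only if there is a positive isomorphism of the
Banach space `C(K)` onto `C(L)`.
-/

set_option autoImplicit false

namespace Pool.Agent.Results.MP_fa8dfe_an.PositiveClassification

open Pool.Agent.Q82.CP Topology

universe u v

/-- The topology of pointwise convergence on `C(K, ℝ)`. -/
abbrev pointwise (K : Type u) [TopologicalSpace K] : TopologicalSpace C(K, ℝ) :=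
  TopologicalSpace.induced (fun f => (f : K → ℝ)) Pi.topologicalSpace

theorem result (K : Type u) (L : Type v) [TopologicalSpace K] [CompactSpace K] [T2Space K]
    [Countable K] [TopologicalSpace L] [CompactSpace L] [T2Space L] [Countable L] :
    (∃ T : C(K, ℝ) ≃ₗ[ℝ] C(L, ℝ), (∀ f, (∀ x, 0 ≤ f x) → ∀ y, 0 ≤ T f y) ∧
        Continuous[pointwise K, pointwise L] T ∧ Continuous[pointwise L, pointwise K] T.symm) ↔
      ∃ T : C(K, ℝ) ≃L[ℝ] C(L, ℝ), ∀ f, (∀ x, 0 ≤ f x) → ∀ y, 0 ≤ T f y := by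
  constructor
  · rintro ⟨T, hT, -, -⟩
    obtain ⟨S, hS⟩ := exists_cle T hT
    exact ⟨S, fun f hf y => by rw [hS]; exact hT f hf y⟩
  · rintro ⟨T, hT⟩
    obtain ⟨S, h1, h2, h3⟩ := pos_of_iso T hT
    exact ⟨S, h1, h2, h3⟩

end Pool.Agent.Results.MP_fa8dfe_an.PositiveClassification
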